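import Pool.Agent.H317.GR.StmD
import Pool.Graph.R_pool_sql_team_seeded_ab47071d.TH567.PR.Gen

/-! From the `x_ij(k)` to all elements: `S_SU4`. -/

set_option autoImplicit false

namespace Pool.Agent.H376.GR

open Matrix
open Pool.Agent.H317.GR
open Pool.Agent.TH567.PR (tv_comm closure_T mem_T)

variable {n : ℕ} {K : Type} [Field K]

/-- the matrix of an elementary matrix -/
theorem std_tv {i j : Fin n} (h : i ≠ j) (t : ℤ) :
    (std n K (SpecialLinearGroup.transvection h t)).val = 1 + Matrix.single i j (t : K) := by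
  change ((SpecialLinearGroup.transvection h t).val).map (Int.castRingHom K) = _
  rw [SpecialLinearGroup.transvection_coe]
  ext x y
  simp only [Matrix.map_apply, Matrix.add_apply, Matrix.one_apply, Matrix.single_apply,
    Int.coe_castRingHom]
  split_ifs <;> simp

/-- a matrix commuting with `1 + t E_ij` commutes with `E_ij` -/
theorem comm_single {i j : Fin n} {t : K} (ht : t ≠ 0) {C : Matrix (Fin n) (Fin n) K}
    (h : C * (1 + Matrix.single i j t) = (1 + Matrix.single i j t) * C) :
    Commute (Matrix.single i j (1 : K)) C := by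
  rw [mul_add, add_mul, mul_one, one_mul] at h
  have h1 : C * Matrix.single i j t = Matrix.single i j t * C := add_left_cancel h
  have h2 : Matrix.single i j t = t • Matrix.single i j (1 : K) := by
    rw [Matrix.smul_single, smul_eq_mul, mul_one]
  rw [h2, Matrix.mul_smul, Matrix.smul_mul] at h1
  exact (smul_right_injective _ ht h1).symm

/-- an element of `GL_n(K)` with scalar matrix is central -/
theorem central {C : GL (Fin n) K} (h : Pairwise fun i j => Commute (Matrix.single i j (1 : K)) C.val)
    (D : GL (Fin n) K) : C * D = D * C := by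
  obtain ⟨r, hr⟩ := Matrix.mem_range_scalar_of_commute_single h
  apply Units.ext
  rw [Units.val_mul, Units.val_mul, ← hr]
  exact Matrix.scalar_commute r (fun s => mul_comm r s) D.val

theorem third (hn : 3 ≤ n) (a b : Fin n) : ∃ c : Fin n, c ≠ a ∧ c ≠ b := by
  have h : ({a, b} : Finset (Fin n)).card < Fintype.card (Fin n) := by
    rw [Fintype.card_fin]
    exact lt_of_le_of_lt Finset.card_le_two (by omega)
  obtain ⟨c, hc⟩ := Finset.exists_mem_notMem_of_card_lt_card (s := {a, b}) (t := Finset.univ)
    (by simpa using h)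
  simp only [Finset.mem_insert, Finset.mem_singleton, not_or] at hc
  exact ⟨c, hc.2.1, hc.2.2⟩

/-- commuting elementary matrices -/
theorem tv_commute {i j a b : Fin n} (hij : i ≠ j) (hab : a ≠ b) (hja : j ≠ a) (hib : i ≠ b)
    (s t : ℤ) : SpecialLinearGroup.transvection hij s * SpecialLinearGroup.transvection hab t =
      SpecialLinearGroup.transvection hab t * SpecialLinearGroup.transvection hij s := by
  apply Subtype.ext
  change (SpecialLinearGroup.transvection hij s).val * (SpecialLinearGroup.transvection hab t).val =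
    (SpecialLinearGroup.transvection hab t).val * (SpecialLinearGroup.transvection hij s).val
  have h1 : Matrix.single i j s * Matrix.single a b t = 0 :=
    Matrix.single_mul_single_of_ne s i j a hja t
  have h2 : Matrix.single a b t * Matrix.single i j s = 0 :=
    Matrix.single_mul_single_of_ne t a b i (Ne.symm hib) s
  rw [SpecialLinearGroup.transvection_coe, SpecialLinearGroup.transvection_coe]
  simp only [mul_add, add_mul, h1, h2, mul_one, one_mul, add_zero]
  abel

section
variable (σ : SZ n →* GL (Fin n) K)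

/-- the elements where `σ` and `std` agree -/
def H : Subgroup (SZ n) := σ.eqLocus (std n K)

theorem mem_H {A : SZ n} : A ∈ H σ ↔ σ A = std n K A := Iff.rfl

variable {σ}

theorem conj_comm {g x y : SZ n} (hx : x ∈ H σ) (hy : y ∈ H σ) (hxy : g * x = y * g) :
    ((std n K g)⁻¹ * σ g) * std n K x = std n K x * ((std n K g)⁻¹ * σ g) := by
  have h1 : σ g * std n K x = std n K y * σ g := by
    rw [← (mem_H σ).1 hx, ← (mem_H σ).1 hy, ← map_mul, ← map_mul, hxy]
  have h2 : std n K g * std n K x = std n K y * std n K g := by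
    rw [← map_mul, ← map_mul, hxy]
  have h3 : std n K x * (std n K g)⁻¹ = (std n K g)⁻¹ * std n K y := by
    rw [eq_inv_mul_iff_mul_eq, ← mul_assoc, h2, mul_assoc, mul_inv_cancel, mul_one]
  rw [mul_assoc, h1, ← mul_assoc, ← mul_assoc, h3]

variable [CharZero K] {k : ℕ}

theorem key (hn : 3 ≤ n) (hk : 1 ≤ k)
    (hσ : ∀ (i j : Fin n) (h : i ≠ j), SpecialLinearGroup.transvection h (k : ℤ) ∈ H σ)
    {a b : Fin n} (hab : a ≠ b) (D : GL (Fin n) K) :
    ((std n K (SpecialLinearGroup.transvection hab 1))⁻¹ *
      σ (SpecialLinearGroup.transvection hab 1)) * D =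
    D * ((std n K (SpecialLinearGroup.transvection hab 1))⁻¹ *
      σ (SpecialLinearGroup.transvection hab 1)) := by
  set g := SpecialLinearGroup.transvection hab (1 : ℤ) with hg
  set C := (std n K g)⁻¹ * σ g with hC
  have hk0 : ((k : ℤ) : K) ≠ 0 := by
    rw [Int.cast_natCast]
    exact_mod_cast (by omega : k ≠ 0)
  have hone : ∀ i j : Fin n, ∀ h : i ≠ j, ∀ y ∈ H σ,
      g * SpecialLinearGroup.transvection h (k : ℤ) = y * g →
      Commute (Matrix.single i j (1 : K)) C.val := by
    intro i j h y hy hgy
    have h1 := conj_comm (hσ i j h) hy hgy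
    have h2 : C.val * (std n K (SpecialLinearGroup.transvection h (k : ℤ))).val =
        (std n K (SpecialLinearGroup.transvection h (k : ℤ))).val * C.val :=
      congrArg Units.val h1
    rw [std_tv] at h2
    exact comm_single hk0 h2
  have hne : ∀ i j : Fin n, i ≠ j → ¬ (i = b ∧ j = a) →
      Commute (Matrix.single i j (1 : K)) C.val := by
    intro i j h hij
    by_cases hbi : b = i
    · subst hbi
      have haj : a ≠ j := fun e => hij ⟨rfl, e.symm⟩
      refine hone b j h (SpecialLinearGroup.transvection haj (k : ℤ) *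
        SpecialLinearGroup.transvection h (k : ℤ)) (mul_mem (hσ a j haj) (hσ b j h)) ?_
      have := tv_comm hab h haj 1 (k : ℤ)
      rw [one_mul] at this
      rw [hg, this, mul_assoc]
    · by_cases haj : a = j
      · subst haj
        have hib : i ≠ b := Ne.symm hbi
        refine hone i a h ((SpecialLinearGroup.transvection hib (k : ℤ))⁻¹ *
          SpecialLinearGroup.transvection h (k : ℤ))
          (mul_mem (inv_mem (hσ i b hib)) (hσ i a h)) ?_
        have := tv_comm h hab hib (k : ℤ) 1
        rw [mul_one] at this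
        rw [mul_assoc, eq_inv_mul_iff_mul_eq, hg, ← this]
      · refine hone i j h (SpecialLinearGroup.transvection h (k : ℤ)) (hσ i j h) ?_
        exact tv_commute hab h hbi haj 1 (k : ℤ)
  refine central (fun i j hij => ?_) D
  by_cases hba : i = b ∧ j = a
  · obtain ⟨rfl, rfl⟩ := hba
    obtain ⟨c, hc1, hc2⟩ := third hn i j
    have h1 := hne i c (Ne.symm hc1) fun h => hc2 h.2
    have h2 := hne c j hc2 fun h => hc1 h.1
    have h3 := h1.mul_left h2
    rwa [Matrix.single_mul_single_same, mul_one] at h3
  · exact hne i j hij hba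

theorem H_top (hn : 3 ≤ n) (hk : 1 ≤ k)
    (hσ : ∀ (i j : Fin n) (h : i ≠ j), SpecialLinearGroup.transvection h (k : ℤ) ∈ H σ) :
    H σ = ⊤ := by
  have h1 : ∀ (i j : Fin n) (h : i ≠ j), SpecialLinearGroup.transvection h (1 : ℤ) ∈ H σ := by
    intro a c hac
    obtain ⟨b, hb1, hb2⟩ := third hn a c
    have hab : a ≠ b := Ne.symm hb1
    rw [mem_H]
    set x := SpecialLinearGroup.transvection hab (1 : ℤ) with hx
    set y := SpecialLinearGroup.transvection hb2 (1 : ℤ) with hy
    have hxy : SpecialLinearGroup.transvection hac (1 : ℤ) = x * y * x⁻¹ * y⁻¹ := by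
      have := tv_comm hab hb2 hac 1 1
      rw [mul_one, ← hx, ← hy] at this
      rw [this]
      group
    have kx := key hn hk hσ hab
    have ky := key hn hk hσ hb2
    rw [← hx] at kx
    rw [← hy] at ky
    set Cx := (std n K x)⁻¹ * σ x with hCx
    set Cy := (std n K y)⁻¹ * σ y with hCy
    have ex : σ x = std n K x * Cx := by rw [hCx, mul_inv_cancel_left]
    have ey : σ y = std n K y * Cy := by rw [hCy, mul_inv_cancel_left]
    rw [hxy, map_mul, map_mul, map_mul, map_inv, map_inv, map_mul, map_mul, map_mul, map_inv,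
      map_inv, ex, ey]
    calc std n K x * Cx * (std n K y * Cy) * (std n K x * Cx)⁻¹ * (std n K y * Cy)⁻¹
        = std n K x * (Cx * std n K y) * Cy * Cx⁻¹ * ((std n K x)⁻¹ * Cy⁻¹) * (std n K y)⁻¹ := by
          group
      _ = std n K x * (std n K y * Cx) * Cy * Cx⁻¹ * (Cy⁻¹ * (std n K x)⁻¹) * (std n K y)⁻¹ := by
          rw [kx]
          have : (std n K x)⁻¹ * Cy⁻¹ = Cy⁻¹ * (std n K x)⁻¹ := by
            rw [← _root_.mul_inv_rev, ← _root_.mul_inv_rev, ky]
          rw [this]
      _ = std n K x * std n K y * (Cx * Cy) * Cx⁻¹ * Cy⁻¹ * (std n K x)⁻¹ * (std n K y)⁻¹ := by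
          group
      _ = std n K x * std n K y * (Cy * Cx) * Cx⁻¹ * Cy⁻¹ * (std n K x)⁻¹ * (std n K y)⁻¹ := by
          rw [kx Cy]
      _ = _ := by group
  have h2 : ∀ (i j : Fin n) (h : i ≠ j) (t : ℤ), SpecialLinearGroup.transvection h t ∈ H σ := by
    intro i j h t
    have hpow : ∀ m : ℕ, SpecialLinearGroup.transvection h (m : ℤ) ∈ H σ := by
      intro m
      induction m with
      | zero =>
        rw [Nat.cast_zero, SpecialLinearGroup.transvection_coeff_zero]
        exact one_mem _
      | succ m ih =>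
        rw [Nat.cast_succ, SpecialLinearGroup.transvection_add]
        exact mul_mem ih (h1 i j h)
    obtain ⟨m, rfl | rfl⟩ := Int.eq_nat_or_neg t
    · exact hpow m
    · rw [← SpecialLinearGroup.transvection_inv]
      exact inv_mem (hpow m)
  rw [eq_top_iff, ← closure_T (⟨0, by omega⟩ : Fin n) ⟨1, by omega⟩ (by simp), Subgroup.closure_le]
  rintro A ⟨i, j, h, t, rfl⟩
  exact h2 i j h t

end

theorem su4 : S_SU4 := by
  intro n hn K _ _ τ k hk P hP A
  let σ : SZ n →* GL (Fin n) K := (MulAut.conj P⁻¹).toMonoidHom.comp τ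
  have hσ : ∀ A, σ A = P⁻¹ * τ A * P := fun A => by
    change P⁻¹ * τ A * (P⁻¹)⁻¹ = _
    rw [inv_inv]
  have h1 : H σ = ⊤ := by
    refine H_top hn hk fun i j h => ?_
    rw [mem_H, hσ, hP i j h]
    group
  have h2 : A ∈ H σ := by rw [h1]; trivial
  rw [mem_H, hσ] at h2
  rw [← h2]
  group

end Pool.Agent.H376.GR
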